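import Pool.Agent.H305R3.Rot.Dich

set_option autoImplicit false
set_option linter.unusedSectionVars false

namespace Pool.H305R3.Rot

open TopologicalSpace Metric

variable {E : Type} [NormedAddCommGroup E] [NormedSpace ℝ E]

lemma uc_const (r : ℝ) : UC E (fun _ => r) :=
  ⟨⟨|r|, fun _ => le_rfl⟩, fun ε hε => ⟨∅, 1, one_pos, fun _ _ _ => by simpa using hε.le⟩⟩

lemma uc_add {F F' : (E ≃ₗᵢ[ℝ] E) → ℝ} (h : UC E F) (h' : UC E F') :
    UC E (fun T => F T + F' T) := by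
  classical
  obtain ⟨⟨C, hC⟩, hu⟩ := h
  obtain ⟨⟨C', hC'⟩, hu'⟩ := h'
  refine ⟨⟨C + C', fun T => (abs_add_le _ _).trans (add_le_add (hC T) (hC' T))⟩, fun ε hε => ?_⟩
  obtain ⟨Z, δ, hδ, h1⟩ := hu (ε / 2) (by positivity)
  obtain ⟨Z', δ', hδ', h1'⟩ := hu' (ε / 2) (by positivity)
  refine ⟨Z ∪ Z', min δ δ', lt_min hδ hδ', fun T S hS => ?_⟩
  have h2 := h1 T S (fun z hz => (hS z (Finset.mem_union_left _ hz)).trans (min_le_left _ _))
  have h3 := h1' T S (fun z hz => (hS z (Finset.mem_union_right _ hz)).trans (min_le_right _ _))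
  have h4 : F (S.trans T) + F' (S.trans T) - (F T + F' T) =
      (F (S.trans T) - F T) + (F' (S.trans T) - F' T) := by ring
  rw [h4]
  refine (abs_add_le _ _).trans ?_
  linarith

lemma uc_mul {F : (E ≃ₗᵢ[ℝ] E) → ℝ} (r : ℝ) (h : UC E F) : UC E (fun T => r * F T) := by
  obtain ⟨⟨C, hC⟩, hu⟩ := h
  refine ⟨⟨|r| * C, fun T => ?_⟩, fun ε hε => ?_⟩
  · rw [abs_mul]
    exact mul_le_mul_of_nonneg_left (hC T) (abs_nonneg _)
  · obtain ⟨Z, δ, hδ, h1⟩ := hu (ε / (|r| + 1)) (by positivity)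
    refine ⟨Z, δ, hδ, fun T S hS => ?_⟩
    have h2 := h1 T S hS
    rw [← mul_sub, abs_mul]
    have h3 : |r| * |F (S.trans T) - F T| ≤ |r| * (ε / (|r| + 1)) :=
      mul_le_mul_of_nonneg_left h2 (abs_nonneg _)
    have h4 : |r| * (ε / (|r| + 1)) ≤ ε := by
      rw [mul_div_assoc', div_le_iff₀ (by positivity)]
      nlinarith [abs_nonneg r]
    linarith

lemma uc_sq {H : Type} [NormedAddCommGroup H] [InnerProductSpace ℝ H] (A : E ≃L[ℝ] H) (y : E) :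
    UC E (fun T => ‖A (T y)‖ ^ 2) := by
  set a : ℝ := ‖(A : E →L[ℝ] H)‖ with ha
  have hb : ∀ z : E, ‖A z‖ ≤ a * ‖z‖ := fun z => (A : E →L[ℝ] H).le_opNorm z
  have ha0 : 0 ≤ a := norm_nonneg _
  refine ⟨⟨(a * ‖y‖) ^ 2, fun T => ?_⟩, fun ε hε => ?_⟩
  · rw [abs_of_nonneg (by positivity)]
    have := hb (T y)
    rw [T.norm_map] at this
    exact pow_le_pow_left₀ (norm_nonneg _) this 2
  · refine ⟨{y}, ε / (2 * (a * ‖y‖) * a + 1), by positivity, fun T S hS => ?_⟩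
    have h1 := hS y (Finset.mem_singleton_self y)
    show |‖A (T (S y))‖ ^ 2 - ‖A (T y)‖ ^ 2| ≤ ε
    have h2 := hb (T (S y))
    have h3 := hb (T y)
    rw [T.norm_map, S.norm_map] at h2
    rw [T.norm_map] at h3
    have h4 : |‖A (T (S y))‖ - ‖A (T y)‖| ≤ a * ‖S y - y‖ := by
      refine (abs_norm_sub_norm_le _ _).trans ?_
      rw [← map_sub, ← map_sub]
      have := hb (T (S y - y))
      rwa [T.norm_map] at this
    have h5 : ‖A (T (S y))‖ ^ 2 - ‖A (T y)‖ ^ 2 =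
        (‖A (T (S y))‖ - ‖A (T y)‖) * (‖A (T (S y))‖ + ‖A (T y)‖) := by ring
    rw [h5, abs_mul, abs_of_nonneg (show 0 ≤ ‖A (T (S y))‖ + ‖A (T y)‖ by positivity)]
    have h6 : |‖A (T (S y))‖ - ‖A (T y)‖| * (‖A (T (S y))‖ + ‖A (T y)‖) ≤
        (a * ‖S y - y‖) * (2 * (a * ‖y‖)) :=
      mul_le_mul h4 (by linarith) (by positivity) (by positivity)
    have h7 : ‖S y - y‖ * (2 * (a * ‖y‖) * a + 1) ≤ ε := by
      rwa [le_div_iff₀ (by positivity)] at h1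
    nlinarith [norm_nonneg (S y - y)]

/-- a transitive norm with amenable isometry group on a space isomorphic to a Hilbert space comes
from an inner product -/
theorem isometric_of_amenable
    (htr : ∀ x y : E, ‖x‖ = 1 → ‖y‖ = 1 → ∃ T : E ≃ₗᵢ[ℝ] E, T x = y) [CompleteSpace E]
    (hA : SOTAmenable E) (x : E) (hx : ‖x‖ = 1)
    {H : Type} [NormedAddCommGroup H] [InnerProductSpace ℝ H] (A : E ≃L[ℝ] H) :
    ∃ (H : Type) (_ : NormedAddCommGroup H) (_ : InnerProductSpace ℝ H)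
      (_ : CompleteSpace H), Nonempty (E ≃ₗᵢ[ℝ] H) := by
  obtain ⟨M, hadd, hmul, hpos, hone, hinv⟩ := hA
  set q : E → ℝ := fun y => M (fun T => ‖A (T y)‖ ^ 2) with hq
  have hqS : ∀ (S : E ≃ₗᵢ[ℝ] E) (y : E), q (S y) = q y := by
    intro S y
    exact hinv S (fun T => ‖A (T y)‖ ^ 2) (uc_sq A y)
  have hqm : ∀ (r : ℝ) (y : E), q (r • y) = r ^ 2 * q y := by
    intro r y
    have h1 : (fun T : E ≃ₗᵢ[ℝ] E => ‖A (T (r • y))‖ ^ 2) =
        fun T => r ^ 2 * ‖A (T y)‖ ^ 2 := by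
      funext T
      rw [map_smul, map_smul, norm_smul, mul_pow, Real.norm_eq_abs, sq_abs]
    show M _ = _
    rw [h1, hmul _ _ (uc_sq A y)]
  have hqp : ∀ y z : E, q (y + z) + q (y - z) = 2 * q y + 2 * q z := by
    intro y z
    have h1 := hadd _ _ (uc_sq A (y + z)) (uc_sq A (y - z))
    have h2 := hadd _ _ (uc_mul 2 (uc_sq A y)) (uc_mul 2 (uc_sq A z))
    rw [hmul _ _ (uc_sq A y), hmul _ _ (uc_sq A z)] at h2
    have h3 : (fun T : E ≃ₗᵢ[ℝ] E => ‖A (T (y + z))‖ ^ 2 + ‖A (T (y - z))‖ ^ 2) =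
        fun T => 2 * ‖A (T y)‖ ^ 2 + 2 * ‖A (T z)‖ ^ 2 := by
      funext T
      rw [map_add, map_add, map_sub, map_sub]
      have := parallelogram_law_with_norm ℝ (A (T y)) (A (T z))
      nlinarith
    rw [h3] at h1
    rw [← h1, h2]
  have hq1 : 0 < q x := by
    obtain ⟨a, ha⟩ : ∃ a : ℝ, a = ‖(A.symm : H →L[ℝ] E)‖ := ⟨_, rfl⟩
    have hb : ∀ T : E ≃ₗᵢ[ℝ] E, 1 ≤ a * ‖A (T x)‖ := by
      intro T
      have h1 := (A.symm : H →L[ℝ] E).le_opNorm (A (T x))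
      have h2 : (A.symm : H →L[ℝ] E) (A (T x)) = T x := A.symm_apply_apply _
      rw [h2, T.norm_map, hx, ← ha] at h1
      exact h1
    have ha0 : 0 < a := by
      have h1 := hb (LinearIsometryEquiv.refl ℝ E)
      have h2 : 0 ≤ a := by rw [ha]; exact norm_nonneg _
      rcases h2.eq_or_lt with h3 | h3
      · rw [← h3, zero_mul] at h1; linarith
      · exact h3
    have h2 : 0 ≤ M (fun T => ‖A (T x)‖ ^ 2 + (-(1 / a ^ 2))) := by
      refine hpos _ (uc_add (uc_sq A x) (uc_const _)) fun T => ?_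
      have h3 := hb T
      have h4 : 1 ≤ (a * ‖A (T x)‖) ^ 2 := by nlinarith
      have h5 : 1 / a ^ 2 ≤ ‖A (T x)‖ ^ 2 := by
        rw [div_le_iff₀ (by positivity)]
        nlinarith
      linarith
    rw [hadd _ _ (uc_sq A x) (uc_const _)] at h2
    have h3 := hmul (-(1 / a ^ 2)) (fun _ => 1) (uc_const 1)
    simp only [mul_one] at h3
    rw [h3, hone] at h2
    have h4 : 0 < 1 / a ^ 2 := by positivity
    show 0 < M _
    linarith
  have hqn : ∀ y : E, q y = q x * ‖y‖ ^ 2 := by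
    intro y
    rcases eq_or_ne y 0 with rfl | hy
    · have := hqm 0 0
      rw [zero_smul] at this
      rw [this]; simp
    · have hy0 : 0 < ‖y‖ := norm_pos_iff.2 hy
      obtain ⟨S, hS⟩ := htr x (‖y‖⁻¹ • y) hx (by
        rw [norm_smul, norm_inv, norm_norm, inv_mul_cancel₀ hy0.ne'])
      have h1 := hqS S x
      rw [hS, hqm] at h1
      have h2 : ‖y‖⁻¹ ^ 2 * q y * ‖y‖ ^ 2 = q y := by field_simp
      rw [← h2, h1]
  have key : ∀ y z : E,
      ‖y + z‖ * ‖y + z‖ + ‖y - z‖ * ‖y - z‖ = 2 * (‖y‖ * ‖y‖ + ‖z‖ * ‖z‖) := by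
    intro y z
    have h1 := hqp y z
    rw [hqn (y + z), hqn (y - z), hqn y, hqn z] at h1
    have h2 : q x * (‖y + z‖ ^ 2 + ‖y - z‖ ^ 2) = q x * (2 * (‖y‖ ^ 2 + ‖z‖ ^ 2)) := by linarith
    have h3 := mul_left_cancel₀ hq1.ne' h2
    nlinarith
  exact ⟨E, inferInstance, InnerProductSpace.ofNorm ℝ key, inferInstance,
    ⟨LinearIsometryEquiv.refl ℝ E⟩⟩

end Pool.H305R3.Rot
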