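import Pool.Agent.H305R3.Rot.Dich

set_option autoImplicit false
set_option linter.unusedSectionVars false

namespace Pool.H305R3.Rot

open TopologicalSpace Metric
open scoped RealInnerProductSpace

section
variable {H : Type} [NormedAddCommGroup H] [InnerProductSpace ℝ H] [CompleteSpace H]

/-- in a Hilbert space every vector can be moved to a fixed plane through `x` by an isometry
which fixes `x` -/
lemma move (x : H) (hx : ‖x‖ = 1) :
    ∃ v : H, ∀ u : H, ‖u‖ = 1 → ∃ (T : H ≃ₗᵢ[ℝ] H) (a b : ℝ), T x = x ∧ T u = a • x + b • v ∧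
      ⟪x, T u⟫ = a ∧ ⟪v, T u⟫ = b ∧ 1 ≤ |a| + |b| := by
  by_cases h : ∃ v : H, ‖v‖ = 1 ∧ ⟪x, v⟫ = 0
  · obtain ⟨v, hv1, hv2⟩ := h
    refine ⟨v, fun u hu => ?_⟩
    set a : ℝ := ⟪x, u⟫ with ha
    set b : ℝ := ‖u - a • x‖ with hb
    set y : H := a • x + b • v with hy
    have hxx : ⟪x, x⟫ = 1 := by rw [real_inner_self_eq_norm_sq, hx]; norm_num
    have hvv : ⟪v, v⟫ = 1 := by rw [real_inner_self_eq_norm_sq, hv1]; norm_num
    have hvx : ⟪v, x⟫ = 0 := by rw [real_inner_comm]; exact hv2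
    have hb2 : b ^ 2 = 1 - a ^ 2 := by
      rw [hb, ← real_inner_self_eq_norm_sq, inner_sub_left, inner_sub_right, inner_sub_right,
        real_inner_smul_left, real_inner_smul_right, real_inner_smul_left, real_inner_smul_right,
        real_inner_comm x u, hxx, ← ha, real_inner_self_eq_norm_sq, hu]
      ring
    have hxy : ⟪x, y⟫ = a := by
      rw [hy, inner_add_right, real_inner_smul_right, real_inner_smul_right, hxx, hv2]; ring
    have hvy : ⟪v, y⟫ = b := by
      rw [hy, inner_add_right, real_inner_smul_right, real_inner_smul_right, hvv, hvx]; ring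
    have hyn : ‖u‖ = ‖y‖ := by
      have h1 : ‖y‖ ^ 2 = 1 := by
        rw [← real_inner_self_eq_norm_sq]
        nth_rw 1 [hy]
        rw [inner_add_left, real_inner_smul_left, real_inner_smul_left, hxy, hvy]
        nlinarith
      have h2 : ‖y‖ = 1 := by
        have := norm_nonneg y
        nlinarith
      rw [hu, h2]
    set T : H ≃ₗᵢ[ℝ] H := (Submodule.span ℝ {u - y})ᗮ.reflection with hT
    have hTu : T u = y := Submodule.reflection_sub hyn
    have hTx : T x = x := by
      rw [hT, Submodule.reflection_eq_self_iff, Submodule.mem_orthogonal_singleton_iff_inner_right,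
        real_inner_comm, inner_sub_right, hxy, ← ha, sub_self]
    refine ⟨T, a, b, hTx, hTu, by rw [hTu, hxy], by rw [hTu, hvy], ?_⟩
    have h3 : |a| ^ 2 + |b| ^ 2 = 1 := by rw [sq_abs, sq_abs]; linarith
    nlinarith [abs_nonneg a, abs_nonneg b]
  · push Not at h
    refine ⟨0, fun u hu => ⟨LinearIsometryEquiv.refl ℝ H, ⟪x, u⟫, 0, rfl, ?_, rfl, ?_, ?_⟩⟩
    · rw [smul_zero, add_zero]
      by_contra hne
      have h0 : u - ⟪x, u⟫ • x ≠ 0 := sub_ne_zero.2 hne
      apply h (‖u - ⟪x, u⟫ • x‖⁻¹ • (u - ⟪x, u⟫ • x))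
      · rw [norm_smul, norm_inv, norm_norm, inv_mul_cancel₀ (norm_ne_zero_iff.2 h0)]
      · rw [real_inner_smul_right, inner_sub_right, real_inner_smul_right,
          real_inner_self_eq_norm_sq, hx]
        ring
    · rw [inner_zero_left]
    · have h0 : u = ⟪x, u⟫ • x := by
        by_contra hne
        have h0 : u - ⟪x, u⟫ • x ≠ 0 := sub_ne_zero.2 hne
        apply h (‖u - ⟪x, u⟫ • x‖⁻¹ • (u - ⟪x, u⟫ • x))
        · rw [norm_smul, norm_inv, norm_norm, inv_mul_cancel₀ (norm_ne_zero_iff.2 h0)]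
        · rw [real_inner_smul_right, inner_sub_right, real_inner_smul_right,
            real_inner_self_eq_norm_sq, hx]
          ring
      have h1 : ‖u‖ = |⟪x, u⟫| := by
        conv_lhs => rw [h0]
        rw [norm_smul, hx, mul_one, Real.norm_eq_abs]
      rw [← h1, hu, abs_zero, add_zero]

lemma hilbert_not_nullVec (x : H) (hx : ‖x‖ = 1) : ¬ NullVec H x := by
  rintro ⟨u, η, hu, hη, h⟩
  obtain ⟨v, hv⟩ := move x hx
  obtain ⟨N1, h1⟩ := h (innerSL ℝ x) (1 / 4) (by norm_num)
  obtain ⟨N2, h2⟩ := h (innerSL ℝ v) (1 / 4) (by norm_num)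
  set n := max N1 N2 with hn
  obtain ⟨T, a, b, hTx, _, ha, hb, hab⟩ := hv (u n) (hu n)
  have hT : ‖T x - x‖ ≤ η n := by rw [hTx, sub_self, norm_zero]; exact (hη n).le
  have h3 := h1 n (le_max_left _ _) T hT
  have h4 := h2 n (le_max_right _ _) T hT
  rw [innerSL_apply_apply, ha] at h3
  rw [innerSL_apply_apply, hb] at h4
  linarith

lemma hilbert_not_nullDual (x : H) (hx : ‖x‖ = 1) : ¬ NullDual H x := by
  rintro ⟨ψ, η, hψ, hη, h⟩
  obtain ⟨v, hv⟩ := move x hx
  obtain ⟨N1, h1⟩ := h x (1 / 4) (by norm_num)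
  obtain ⟨N2, h2⟩ := h v (1 / 4) (by norm_num)
  set n := max N1 N2 with hn
  set p : H := (InnerProductSpace.toDual ℝ H).symm (ψ n) with hp
  have hpn : ‖p‖ = 1 := by rw [hp, LinearIsometryEquiv.norm_map, hψ]
  have hpa : ∀ z : H, ψ n z = ⟪p, z⟫ := by
    intro z
    rw [hp, InnerProductSpace.toDual_symm_apply]
  obtain ⟨T, a, b, hTx, _, ha, hb, hab⟩ := hv p hpn
  have hTsx : T.symm x = x := by
    have := congrArg T.symm hTx
    rwa [T.symm_apply_apply, eq_comm] at this
  have hT : ‖T.symm x - x‖ ≤ η n := by rw [hTsx, sub_self, norm_zero]; exact (hη n).le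
  have h3 := h1 n (le_max_left _ _) T.symm hT
  have h4 := h2 n (le_max_right _ _) T.symm hT
  have key : ∀ z : H, ⟪p, T.symm z⟫ = ⟪z, T p⟫ := by
    intro z
    rw [← T.inner_map_map p (T.symm z), T.apply_symm_apply, real_inner_comm]
  rw [hpa, key, ha] at h3
  rw [hpa, key, hb] at h4
  linarith

end

variable {E : Type} [NormedAddCommGroup E] [NormedSpace ℝ E]

/-- the converse: for a Hilbert norm there are no null orbits -/
theorem not_null_of_isometric [CompleteSpace E] {H : Type} [NormedAddCommGroup H]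
    [InnerProductSpace ℝ H] (A : E ≃ₗᵢ[ℝ] H) (x : E) (hx : ‖x‖ = 1) :
    ¬ NullDual E x ∧ ¬ NullVec E x := by
  have key : ∀ y z : E,
      ‖y + z‖ * ‖y + z‖ + ‖y - z‖ * ‖y - z‖ = 2 * (‖y‖ * ‖y‖ + ‖z‖ * ‖z‖) := by
    intro y z
    rw [← A.norm_map (y + z), ← A.norm_map (y - z), ← A.norm_map y, ← A.norm_map z, map_add,
      map_sub]
    have h1 := parallelogram_law_with_norm ℝ (A y) (A z)
    simp only [sq] at h1
    exact h1
  let i1 : InnerProductSpace ℝ E := InnerProductSpace.ofNorm ℝ key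
  exact ⟨hilbert_not_nullDual x hx, hilbert_not_nullVec x hx⟩

end Pool.H305R3.Rot
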