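import Mathlib

set_option autoImplicit false

/-!
# Definitions for the rotation problem

`E ≃ₗᵢ[ℝ] E` is the group of surjective linear isometries; `S.trans T` is the composition `T ∘ S`.
-/

namespace Pool.H305R3.Rot

/-- a normalized sequence of functionals which tends to zero weak*, uniformly along the orbits of
near-stabilizers of `x` -/
def NullDual (E : Type) [NormedAddCommGroup E] [NormedSpace ℝ E] (x : E) : Prop :=
  ∃ (ψ : ℕ → StrongDual ℝ E) (η : ℕ → ℝ), (∀ n, ‖ψ n‖ = 1) ∧ (∀ n, 0 < η n) ∧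
    ∀ v : E, ∀ ε : ℝ, 0 < ε → ∃ N : ℕ, ∀ n : ℕ, N ≤ n → ∀ T : E ≃ₗᵢ[ℝ] E,
      ‖T x - x‖ ≤ η n → |ψ n (T v)| ≤ ε

/-- a normalized sequence of vectors which tends to zero weakly, uniformly along the orbits of
near-stabilizers of `x` -/
def NullVec (E : Type) [NormedAddCommGroup E] [NormedSpace ℝ E] (x : E) : Prop :=
  ∃ (u : ℕ → E) (η : ℕ → ℝ), (∀ n, ‖u n‖ = 1) ∧ (∀ n, 0 < η n) ∧
    ∀ f : StrongDual ℝ E, ∀ ε : ℝ, 0 < ε → ∃ N : ℕ, ∀ n : ℕ, N ≤ n → ∀ T : E ≃ₗᵢ[ℝ] E,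
      ‖T x - x‖ ≤ η n → |f (T (u n))| ≤ ε

/-- bounded functions on the isometry group with `sup_T |F (T S) - F T| → 0` as `S → 1` in the
strong operator topology -/
def UC (E : Type) [NormedAddCommGroup E] [NormedSpace ℝ E] (F : (E ≃ₗᵢ[ℝ] E) → ℝ) : Prop :=
  (∃ C : ℝ, ∀ T, |F T| ≤ C) ∧
    ∀ ε : ℝ, 0 < ε → ∃ (Z : Finset E) (δ : ℝ), 0 < δ ∧ ∀ T S : E ≃ₗᵢ[ℝ] E,
      (∀ z ∈ Z, ‖S z - z‖ ≤ δ) → |F (S.trans T) - F T| ≤ ε

/-- amenability of the isometry group with the strong operator topology -/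
def SOTAmenable (E : Type) [NormedAddCommGroup E] [NormedSpace ℝ E] : Prop :=
  ∃ M : ((E ≃ₗᵢ[ℝ] E) → ℝ) → ℝ,
    (∀ F F', UC E F → UC E F' → M (fun T => F T + F' T) = M F + M F') ∧
    (∀ (r : ℝ) F, UC E F → M (fun T => r * F T) = r * M F) ∧
    (∀ F, UC E F → (∀ T, 0 ≤ F T) → 0 ≤ M F) ∧
    M (fun _ => 1) = 1 ∧
    ∀ (S : E ≃ₗᵢ[ℝ] E) F, UC E F → M (fun T => F (S.trans T)) = M F

end Pool.H305R3.Rot
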