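import Pool.Agent.H305R3.Rot.Dual
import Pool.Agent.H305R3.Rot.Defs

set_option autoImplicit false
set_option linter.unusedSectionVars false

namespace Pool.H305R3.Rot

open TopologicalSpace Metric Pool.H755R2.MT

variable {E : Type} [NormedAddCommGroup E] [NormedSpace ℝ E]

lemma a_of_not_null [SeparableSpace E] (x : E) (h : ¬ NullDual E x) :
    ∃ (m : ℕ) (e : Fin m → E) (c : ℝ), 0 < c ∧ ∀ η : ℝ, 0 < η → ∀ ψ : StrongDual ℝ E,
      ∃ T : E ≃ₗᵢ[ℝ] E, ‖T x - x‖ ≤ η ∧ ∃ i, c * ‖ψ‖ ≤ |ψ (T (e i))| := by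
  by_contra hcon
  push Not at hcon
  apply h
  have hex : ∀ n : ℕ, ∃ (ψ : StrongDual ℝ E) (η : ℝ), ‖ψ‖ = 1 ∧ 0 < η ∧
      ∀ T : E ≃ₗᵢ[ℝ] E, ‖T x - x‖ ≤ η → ∀ i : ℕ, i ≤ n → |ψ (T (denseSeq E i))| ≤ 1 / (n + 1) := by
    intro n
    obtain ⟨η, hη, ψ, hψ⟩ := hcon (n + 1) (fun i => denseSeq E i) (1 / (n + 1)) (by positivity)
    have hψ0 : 0 < ‖ψ‖ := by
      have h1 := hψ (LinearIsometryEquiv.refl ℝ E) (by simp [hη.le]) 0
      have h2 := ψ.le_opNorm ((LinearIsometryEquiv.refl ℝ E) (denseSeq E ((0 : Fin (n + 1)) : ℕ)))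
      rw [Real.norm_eq_abs] at h2
      rcases (norm_nonneg ψ).eq_or_lt with h3 | h3
      · rw [← h3, mul_zero] at h1
        exact absurd (abs_nonneg _) (not_le.2 h1)
      · exact h3
    refine ⟨‖ψ‖⁻¹ • ψ, η, ?_, hη, fun T hT i hi => ?_⟩
    · rw [norm_smul, norm_inv, norm_norm, inv_mul_cancel₀ hψ0.ne']
    · have h1 := hψ T hT ⟨i, Nat.lt_succ_of_le hi⟩
      have h2 : (‖ψ‖⁻¹ • ψ) (T (denseSeq E i)) = ‖ψ‖⁻¹ * ψ (T (denseSeq E i)) := rfl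
      rw [h2, abs_mul, abs_of_pos (inv_pos.2 hψ0), inv_mul_le_iff₀ hψ0]
      have h3 : ‖ψ‖ * (1 / ((n : ℝ) + 1)) = 1 / (n + 1) * ‖ψ‖ := mul_comm _ _
      rw [h3]
      exact h1.le
  choose ψ η h1 h2 h3 using hex
  refine ⟨ψ, η, h1, h2, fun v ε hε => ?_⟩
  obtain ⟨i, hi⟩ := (denseRange_denseSeq E).exists_dist_lt v (half_pos hε)
  obtain ⟨N, hN⟩ := exists_nat_one_div_lt (half_pos hε)
  refine ⟨max i N, fun n hn T hT => ?_⟩
  have h4 := h3 n T hT i ((le_max_left _ _).trans hn)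
  have h5 : (1 : ℝ) / (n + 1) ≤ 1 / (N + 1) := by
    apply one_div_le_one_div_of_le (by positivity)
    have : (N : ℝ) ≤ n := by exact_mod_cast (le_max_right _ _).trans hn
    linarith
  have h6 : ψ n (T v) = ψ n (T (denseSeq E i)) + ψ n (T (v - denseSeq E i)) := by
    rw [← map_add, ← map_add]
    congr 2
    abel
  have h7 : |ψ n (T (v - denseSeq E i))| ≤ ε / 2 := by
    have h8 := (ψ n).le_opNorm (T (v - denseSeq E i))
    rw [h1, one_mul, T.norm_map, ← dist_eq_norm, Real.norm_eq_abs] at h8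
    exact h8.trans hi.le
  rw [h6]
  refine (abs_add_le _ _).trans ?_
  linarith

lemma b_of_not_null [SeparableSpace (StrongDual ℝ E)] (x : E) (h : ¬ NullVec E x) :
    ∃ (m : ℕ) (φ : Fin m → StrongDual ℝ E) (c : ℝ), 0 < c ∧ ∀ η : ℝ, 0 < η → ∀ u : E,
      ∃ T : E ≃ₗᵢ[ℝ] E, ‖T x - x‖ ≤ η ∧ ∃ i, c * ‖u‖ ≤ |φ i (T u)| := by
  by_contra hcon
  push Not at hcon
  apply h
  set D := denseSeq (StrongDual ℝ E) with hD
  have hex : ∀ n : ℕ, ∃ (u : E) (η : ℝ), ‖u‖ = 1 ∧ 0 < η ∧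
      ∀ T : E ≃ₗᵢ[ℝ] E, ‖T x - x‖ ≤ η → ∀ i : ℕ, i ≤ n → |D i (T u)| ≤ 1 / (n + 1) := by
    intro n
    obtain ⟨η, hη, u, hu⟩ := hcon (n + 1) (fun i => D i) (1 / (n + 1)) (by positivity)
    have hu0 : 0 < ‖u‖ := by
      have h1 := hu (LinearIsometryEquiv.refl ℝ E) (by simp [hη.le]) 0
      rcases (norm_nonneg u).eq_or_lt with h3 | h3
      · rw [← h3, mul_zero] at h1
        exact absurd (abs_nonneg _) (not_le.2 h1)
      · exact h3
    refine ⟨‖u‖⁻¹ • u, η, ?_, hη, fun T hT i hi => ?_⟩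
    · rw [norm_smul, norm_inv, norm_norm, inv_mul_cancel₀ hu0.ne']
    · have h1 := hu T hT ⟨i, Nat.lt_succ_of_le hi⟩
      rw [map_smul, map_smul, smul_eq_mul, abs_mul, abs_of_pos (inv_pos.2 hu0),
        inv_mul_le_iff₀ hu0]
      have h3 : ‖u‖ * (1 / ((n : ℝ) + 1)) = 1 / (n + 1) * ‖u‖ := mul_comm _ _
      rw [h3]
      exact h1.le
  choose u η h1 h2 h3 using hex
  refine ⟨u, η, h1, h2, fun f ε hε => ?_⟩
  obtain ⟨i, hi⟩ := (denseRange_denseSeq (StrongDual ℝ E)).exists_dist_lt f (half_pos hε)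
  obtain ⟨N, hN⟩ := exists_nat_one_div_lt (half_pos hε)
  refine ⟨max i N, fun n hn T hT => ?_⟩
  have h4 := h3 n T hT i ((le_max_left _ _).trans hn)
  have h5 : (1 : ℝ) / (n + 1) ≤ 1 / (N + 1) := by
    apply one_div_le_one_div_of_le (by positivity)
    have : (N : ℝ) ≤ n := by exact_mod_cast (le_max_right _ _).trans hn
    linarith
  have h6 : f (T (u n)) = D i (T (u n)) + (f - D i) (T (u n)) := by
    show _ = D i (T (u n)) + (f (T (u n)) - D i (T (u n)))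
    ring
  have h7 : |(f - D i) (T (u n))| ≤ ε / 2 := by
    have h8 := (f - D i).le_opNorm (T (u n))
    rw [T.norm_map, h1, mul_one, ← dist_eq_norm, Real.norm_eq_abs] at h8
    exact h8.trans hi.le
  rw [h6]
  refine (abs_add_le _ _).trans ?_
  linarith

/-- the dichotomy -/
theorem dichotomy [CompleteSpace E] [SeparableSpace E]
    (htr : ∀ x y : E, ‖x‖ = 1 → ‖y‖ = 1 → ∃ T : E ≃ₗᵢ[ℝ] E, T x = y) (x : E) (hx : ‖x‖ = 1)
    (h1 : ¬ NullDual E x) (h2 : ¬ NullVec E x) :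
    ∃ (H : Type) (_ : NormedAddCommGroup H) (_ : InnerProductSpace ℝ H)
      (_ : CompleteSpace H), Nonempty (E ≃L[ℝ] H) := by
  obtain ⟨m, e, c, hc, ha⟩ := a_of_not_null x h1
  obtain ⟨K, hK0, hK⟩ := smooth_of_a htr x hx e hc ha
  have hsep := dual_separable hK0 hK
  obtain ⟨m', φ, c', hc', hb⟩ := b_of_not_null x h2
  exact hilbert_of_b htr hK0 hK x hx φ hc' hb

end Pool.H305R3.Rot
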