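import Pool.Agent.H305R3.Rot.Step

set_option autoImplicit false
set_option linter.unusedSectionVars false

namespace Pool.H305R3.Rot

open TopologicalSpace Metric Pool.H755R2.MT

variable {E : Type*} [NormedAddCommGroup E] [NormedSpace ℝ E]

lemma norm_comp_le (f : StrongDual ℝ E) (T : E ≃ₗᵢ[ℝ] E) :
    ‖f.comp (T : E →L[ℝ] E)‖ ≤ ‖f‖ := by
  refine ContinuousLinearMap.opNorm_le_bound _ (norm_nonneg _) fun w => ?_
  have h : f.comp (T : E →L[ℝ] E) w = f (T w) := rfl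
  rw [h]
  refine (f.le_opNorm _).trans ?_
  rw [T.norm_map]

lemma norm_comp_eq (f : StrongDual ℝ E) (T : E ≃ₗᵢ[ℝ] E) :
    ‖f.comp (T : E →L[ℝ] E)‖ = ‖f‖ := by
  apply le_antisymm (norm_comp_le f T)
  have h := norm_comp_le (f.comp (T : E →L[ℝ] E)) T.symm
  have h2 : (f.comp (T : E →L[ℝ] E)).comp (T.symm : E →L[ℝ] E) = f := by
    ext w
    show f (T (T.symm w)) = f w
    rw [T.apply_symm_apply]
  rwa [h2] at h

/-- the dual isometry -/
noncomputable def dualIso (T : E ≃ₗᵢ[ℝ] E) : StrongDual ℝ E ≃ₗᵢ[ℝ] StrongDual ℝ E where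
  toFun := fun f => f.comp (T.symm : E →L[ℝ] E)
  invFun := fun f => f.comp (T : E →L[ℝ] E)
  map_add' := fun f g => by ext w; rfl
  map_smul' := fun r f => by ext w; rfl
  left_inv := fun f => by
    ext w
    show f (T.symm (T w)) = f w
    rw [T.symm_apply_apply]
  right_inv := fun f => by
    ext w
    show f (T (T.symm w)) = f w
    rw [T.apply_symm_apply]
  norm_map' := fun f => norm_comp_eq f T.symm

lemma dualIso_apply (T : E ≃ₗᵢ[ℝ] E) (f : StrongDual ℝ E) (w : E) :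
    dualIso T f w = f (T.symm w) := rfl

lemma dualIso_symm_apply (T : E ≃ₗᵢ[ℝ] E) (f : StrongDual ℝ E) (w : E) :
    (dualIso T).symm f w = f (T w) := rfl

/-- norming functionals of nearby points are near -/
lemma fclose {K : ℝ} (hK0 : 0 < K) (hK : ∀ x w : E, ‖x‖ = 1 → dl x w ≤ K * ‖w‖ ^ 2)
    {x y : E} {f g : StrongDual ℝ E} (hx : ‖x‖ = 1) (hf : ‖f‖ ≤ 1) (hg : ‖g‖ ≤ 1)
    (hfx : f x = 1) (hgy : g y = 1) : ‖g - f‖ ≤ 2 * Real.sqrt (K * ‖y - x‖) := by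
  refine ContinuousLinearMap.opNorm_le_bound _ (by positivity) fun h => ?_
  have h1 : 1 - ‖y - x‖ ≤ g x := by
    have h2 : g x = 1 - g (y - x) := by rw [map_sub, hgy]; ring
    have h3 := apply_le hg (y - x)
    rw [h2]; linarith
  exact fdiff hK0 (norm_nonneg _) hK hx hf hg hfx h1 h

lemma dual_transitive [CompleteSpace E] {K : ℝ} (hK0 : 0 < K)
    (hK : ∀ x w : E, ‖x‖ = 1 → dl x w ≤ K * ‖w‖ ^ 2)
    (htr : ∀ x y : E, ‖x‖ = 1 → ‖y‖ = 1 → ∃ T : E ≃ₗᵢ[ℝ] E, T x = y)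
    (f g : StrongDual ℝ E) (hf : ‖f‖ = 1) (hg : ‖g‖ = 1) :
    ∃ T : E ≃ₗᵢ[ℝ] E, dualIso T f = g := by
  have hat : ∀ f : StrongDual ℝ E, ‖f‖ = 1 → ∃ x : E, ‖x‖ = 1 ∧ f x = 1 := by
    intro f hf
    obtain ⟨x, hx1, hx2⟩ := attains hK0 hK f
    rw [hf] at hx2
    refine ⟨x, le_antisymm hx1 ?_, hx2⟩
    have := apply_le hf.le x
    rwa [hx2] at this
  obtain ⟨x, hx1, hx2⟩ := hat f hf
  obtain ⟨y, hy1, hy2⟩ := hat g hg
  obtain ⟨T, hT⟩ := htr x y hx1 hy1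
  refine ⟨T, ?_⟩
  refine norming_unique hK0 hK hy1 hg.le ?_ hy2 ?_
  · rw [(dualIso T).norm_map, hf]
  · rw [dualIso_apply, ← hT, T.symm_apply_apply, hx2]

lemma dual_separable [CompleteSpace E] [SeparableSpace E] {K : ℝ} (hK0 : 0 < K)
    (hK : ∀ x w : E, ‖x‖ = 1 → dl x w ≤ K * ‖w‖ ^ 2) :
    SeparableSpace (StrongDual ℝ E) := by
  have : SecondCountableTopology E := UniformSpace.secondCountable_of_separable E
  set S : Set E := sphere (0 : E) 1 with hS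
  have hex : ∀ x : S, ∃ f : StrongDual ℝ E, ‖f‖ = 1 ∧ f (x : E) = 1 := by
    intro x
    have hx : ‖(x : E)‖ = 1 := mem_sphere_zero_iff_norm.1 x.2
    obtain ⟨f, hf1, hf2⟩ := exists_dual_vector ℝ (x : E) (by rw [hx]; norm_num)
    exact ⟨f, hf1, by rw [hf2, hx]; simp⟩
  choose J hJ1 hJ2 using hex
  have hJc : Continuous J := by
    rw [Metric.continuous_iff]
    intro x ε hε
    refine ⟨(ε / 4) ^ 2 / K, by positivity, fun y hy => ?_⟩
    have hx : ‖(x : E)‖ = 1 := mem_sphere_zero_iff_norm.1 x.2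
    have h1 := fclose hK0 hK hx (hJ1 x).le (hJ1 y).le (hJ2 x) (hJ2 y)
    rw [Subtype.dist_eq, dist_eq_norm] at hy
    rw [dist_eq_norm]
    have h2 : K * ‖(y : E) - x‖ ≤ (ε / 4) ^ 2 := by
      rw [lt_div_iff₀ hK0] at hy
      linarith
    have h3 : Real.sqrt (K * ‖(y : E) - x‖) ≤ ε / 4 := by
      rw [← Real.sqrt_sq (show 0 ≤ ε / 4 by positivity)]
      exact Real.sqrt_le_sqrt h2
    linarith
  have hcont : Continuous (fun p : ℝ × S => p.1 • J p.2) :=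
    continuous_fst.smul (hJc.comp continuous_snd)
  rcases subsingleton_or_nontrivial (StrongDual ℝ E) with hsub | hnt
  · infer_instance
  refine Function.Surjective.denseRange ?_ |>.separableSpace hcont
  intro f
  rcases eq_or_ne f 0 with rfl | hf
  · obtain ⟨g, hg⟩ := exists_ne (0 : StrongDual ℝ E)
    obtain ⟨z, hz1, hz2⟩ := attains hK0 hK g
    have hgn : 0 < ‖g‖ := norm_pos_iff.2 hg
    have hz0 : z ≠ 0 := by
      rintro rfl
      rw [map_zero] at hz2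
      linarith
    refine ⟨(0, ⟨‖z‖⁻¹ • z, ?_⟩), by simp⟩
    rw [hS, mem_sphere_zero_iff_norm, norm_smul, norm_inv, norm_norm,
      inv_mul_cancel₀ (norm_ne_zero_iff.2 hz0)]
  · have hfn : 0 < ‖f‖ := norm_pos_iff.2 hf
    obtain ⟨z, hz1, hz2⟩ := attains hK0 hK f
    have hz : ‖z‖ = 1 := by
      apply le_antisymm hz1
      have h1 : f z ≤ ‖f‖ * ‖z‖ := (le_abs_self _).trans (f.le_opNorm z)
      rw [hz2] at h1
      by_contra hcon
      push Not at hcon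
      nlinarith
    refine ⟨(‖f‖, ⟨z, mem_sphere_zero_iff_norm.2 hz⟩), ?_⟩
    have h1 : ‖f‖⁻¹ • f = J ⟨z, mem_sphere_zero_iff_norm.2 hz⟩ := by
      refine norming_unique hK0 hK hz (hJ1 _).le ?_ (hJ2 _) ?_
      · rw [norm_smul, norm_inv, norm_norm, inv_mul_cancel₀ hfn.ne']
      · show ‖f‖⁻¹ * f z = 1
        rw [hz2, inv_mul_cancel₀ hfn.ne']
    show ‖f‖ • J ⟨z, _⟩ = f
    rw [← h1, smul_inv_smul₀ hfn.ne']

/-- domination in the space -/
lemma dom_primal {ι : Type} [Finite ι] (x : E) (e : ι → E) {c : ℝ}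
    (ha : ∀ η : ℝ, 0 < η → ∀ ψ : StrongDual ℝ E, ∃ T : E ≃ₗᵢ[ℝ] E, ‖T x - x‖ ≤ η ∧
      ∃ i, c * ‖ψ‖ ≤ |ψ (T (e i))|)
    (s : ℝ) (hs : 0 < s) (w : E) (hw : ‖w‖ ≤ c * s) : ∃ i, dl x w ≤ dl x (s • e i) := by
  apply exists_le_of_forall
  intro δ hδ
  obtain ⟨f, hf1, hf2⟩ := exists_dual_vector'' ℝ (x + w)
  obtain ⟨g, hg1, hg2⟩ := exists_dual_vector'' ℝ (x - w)
  simp only [RCLike.ofReal_real_eq_id, id_eq] at hf2 hg2
  set ψ : StrongDual ℝ E := f - g with hψ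
  obtain ⟨T, hT, i, hi⟩ := ha (δ / 4) (by positivity) ψ
  refine ⟨i, ?_⟩
  have h1 : ψ w ≤ s * |ψ (T (e i))| := by
    have h2 : ψ w ≤ ‖ψ‖ * ‖w‖ := (le_abs_self _).trans (ψ.le_opNorm w)
    have h3 : ‖ψ‖ * ‖w‖ ≤ ‖ψ‖ * (c * s) := mul_le_mul_of_nonneg_left hw (norm_nonneg _)
    have h4 : s * (c * ‖ψ‖) ≤ s * |ψ (T (e i))| := mul_le_mul_of_nonneg_left hi hs.le
    nlinarith
  have h2 : dl x w ≤ dl x (T (s • e i)) := by
    have e0 : dl x w + 2 * ‖x‖ = f x + g x + ψ w := by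
      unfold dl
      rw [← hf2, ← hg2, map_add, map_sub, hψ]
      show f x + f w + (g x - g w) - 2 * ‖x‖ + 2 * ‖x‖ = f x + g x + (f w - g w)
      ring
    have e1 : ∀ z : E, f x + g x + ψ z ≤ dl x z + 2 * ‖x‖ := by
      intro z
      have q1 := apply_le hf1 (x + z)
      have q2 := apply_le hg1 (x - z)
      rw [map_add] at q1
      rw [map_sub] at q2
      unfold dl
      have q3 : ψ z = f z - g z := rfl
      rw [q3]
      linarith
    have e2 : dl x (-(T (s • e i))) = dl x (T (s • e i)) := by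
      unfold dl
      rw [sub_neg_eq_add, ← sub_eq_add_neg]
      ring
    have e3 : ψ (T (s • e i)) = s * ψ (T (e i)) := by
      rw [map_smul, map_smul, smul_eq_mul]
    rcases le_or_gt 0 (ψ (T (e i))) with hsg | hsg
    · rw [abs_of_nonneg hsg] at h1
      have := e1 (T (s • e i))
      rw [e3] at this
      linarith
    · rw [abs_of_neg hsg] at h1
      have := e1 (-(T (s • e i)))
      rw [map_neg, e3, e2] at this
      linarith
  have h3 : dl x (T (s • e i)) = dl (T.symm x) (s • e i) := by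
    rw [← dl_map T.symm, T.symm_apply_apply]
  have h4 := dl_lip (T.symm x) x (s • e i)
  have h5 : ‖T.symm x - x‖ ≤ δ / 4 := by
    have : T.symm x - x = T.symm (x - T x) := by rw [map_sub, T.symm_apply_apply]
    rw [this, T.symm.norm_map, norm_sub_rev]
    exact hT
  linarith

/-- domination in the dual space -/
lemma dom_dual [CompleteSpace E] {K : ℝ} (hK0 : 0 < K)
    (hK : ∀ x w : E, ‖x‖ = 1 → dl x w ≤ K * ‖w‖ ^ 2) {ι : Type} [Finite ι]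
    (x : E) (hx : ‖x‖ = 1) (f : StrongDual ℝ E) (hf : ‖f‖ = 1) (hfx : f x = 1)
    (φ : ι → StrongDual ℝ E) {c : ℝ}
    (hb : ∀ η : ℝ, 0 < η → ∀ u : E, ∃ T : E ≃ₗᵢ[ℝ] E, ‖T x - x‖ ≤ η ∧
      ∃ i, c * ‖u‖ ≤ |φ i (T u)|)
    (s : ℝ) (hs : 0 < s) (ψ : StrongDual ℝ E) (hψ : ‖ψ‖ ≤ c * s) :
    ∃ i, dl f ψ ≤ dl f (s • φ i) := by
  apply exists_le_of_forall
  intro δ hδ
  obtain ⟨z, hz1, hz2⟩ := attains hK0 hK (f + ψ)
  obtain ⟨z', hz'1, hz'2⟩ := attains hK0 hK (f - ψ)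
  obtain ⟨T, hT, i, hi⟩ := hb ((δ / 8) ^ 2 / K) (by positivity) (z - z')
  refine ⟨i, ?_⟩
  set θ : StrongDual ℝ E := (dualIso T).symm (φ i) with hθ
  have hθu : ∀ u : E, θ u = φ i (T u) := fun u => rfl
  have h1 : ψ (z - z') ≤ s * |θ (z - z')| := by
    have h2 : ψ (z - z') ≤ ‖ψ‖ * ‖z - z'‖ := (le_abs_self _).trans (ψ.le_opNorm _)
    have h3 : ‖ψ‖ * ‖z - z'‖ ≤ (c * s) * ‖z - z'‖ := mul_le_mul_of_nonneg_right hψ (norm_nonneg _)
    have h4 : s * (c * ‖z - z'‖) ≤ s * |φ i (T (z - z'))| := mul_le_mul_of_nonneg_left hi hs.le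
    rw [hθu]
    nlinarith
  have h2 : dl f ψ ≤ dl f (s • θ) := by
    have e0 : dl f ψ + 2 * ‖f‖ = f z + f z' + ψ (z - z') := by
      unfold dl
      rw [← hz2, ← hz'2, map_sub]
      show f z + ψ z + (f z' - ψ z') - 2 * ‖f‖ + 2 * ‖f‖ = f z + f z' + (ψ z - ψ z')
      ring
    have hle : ∀ (F : StrongDual ℝ E) (v : E), ‖v‖ ≤ 1 → F v ≤ ‖F‖ := by
      intro F v hv
      have q1 : F v ≤ ‖F‖ * ‖v‖ := (le_abs_self _).trans (F.le_opNorm v)
      have q2 : ‖F‖ * ‖v‖ ≤ ‖F‖ * 1 := mul_le_mul_of_nonneg_left hv (norm_nonneg _)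
      linarith
    have q1 := hle (f + s • θ) z hz1
    have q2 := hle (f - s • θ) z' hz'1
    have q3 := hle (f - s • θ) z hz1
    have q4 := hle (f + s • θ) z' hz'1
    have r1 : ∀ v, (f + s • θ) v = f v + s * θ v := fun v => rfl
    have r2 : ∀ v, (f - s • θ) v = f v - s * θ v := fun v => rfl
    rw [r1] at q1 q4
    rw [r2] at q2 q3
    have e1 : dl f (s • θ) + 2 * ‖f‖ = ‖f + s • θ‖ + ‖f - s • θ‖ := by
      unfold dl; ring
    have e2 : θ (z - z') = θ z - θ z' := map_sub _ _ _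
    rcases le_or_gt 0 (θ (z - z')) with hsg | hsg
    · rw [abs_of_nonneg hsg, e2] at h1
      nlinarith
    · rw [abs_of_neg hsg, e2] at h1
      nlinarith
  have h3 : dl f (s • θ) = dl (dualIso T f) (s • φ i) := by
    rw [← dl_map (dualIso T), map_smul, hθ, LinearIsometryEquiv.apply_symm_apply]
  have h4 := dl_lip (dualIso T f) f (s • φ i)
  have h5 : ‖dualIso T f - f‖ ≤ 2 * Real.sqrt (K * ‖T x - x‖) := by
    refine fclose hK0 hK hx hf.le ?_ hfx ?_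
    · rw [(dualIso T).norm_map, hf]
    · rw [dualIso_apply, T.symm_apply_apply, hfx]
  have h6 : Real.sqrt (K * ‖T x - x‖) ≤ δ / 8 := by
    rw [← Real.sqrt_sq (show 0 ≤ δ / 8 by positivity)]
    apply Real.sqrt_le_sqrt
    rw [le_div_iff₀ hK0] at hT
    linarith
  linarith

/-- First half: finitely many vectors whose orbits under the near-stabilizers of `x` are norming for
the dual give smoothness of power type 2. -/
theorem smooth_of_a [CompleteSpace E] [SeparableSpace E]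
    (htr : ∀ x y : E, ‖x‖ = 1 → ‖y‖ = 1 → ∃ T : E ≃ₗᵢ[ℝ] E, T x = y)
    {ι : Type} [Finite ι] (x : E) (hx : ‖x‖ = 1) (e : ι → E) {c : ℝ} (hc : 0 < c)
    (ha : ∀ η : ℝ, 0 < η → ∀ ψ : StrongDual ℝ E, ∃ T : E ≃ₗᵢ[ℝ] E, ‖T x - x‖ ≤ η ∧
      ∃ i, c * ‖ψ‖ ≤ |ψ (T (e i))|) :
    ∃ K : ℝ, 0 < K ∧ ∀ x w : E, ‖x‖ = 1 → dl x w ≤ K * ‖w‖ ^ 2 := by
  obtain ⟨K, hK0, hK1⟩ := smooth_at x hx e hc
    (fun κ hκ => near_open htr e x hx hκ) (fun s hs w hw => dom_primal x e ha s hs w hw)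
  refine ⟨K, hK0, ?_⟩
  intro y w hy
  obtain ⟨T, hT⟩ := htr x y hx hy
  have h1 := hK1 (T.symm w)
  rw [T.symm.norm_map] at h1
  rw [← hT]
  have h2 : dl (T x) w = dl x (T.symm w) := by
    rw [← dl_map T x (T.symm w), T.apply_symm_apply]
  rw [h2]
  exact h1

/-- Second half. -/
theorem hilbert_of_b {E : Type} [NormedAddCommGroup E] [NormedSpace ℝ E] [CompleteSpace E]
    [SeparableSpace E]
    (htr : ∀ x y : E, ‖x‖ = 1 → ‖y‖ = 1 → ∃ T : E ≃ₗᵢ[ℝ] E, T x = y)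
    {K : ℝ} (hK0 : 0 < K) (hK : ∀ x w : E, ‖x‖ = 1 → dl x w ≤ K * ‖w‖ ^ 2)
    {ι : Type} [Finite ι] (x : E) (hx : ‖x‖ = 1) (φ : ι → StrongDual ℝ E)
    {c : ℝ} (hc : 0 < c)
    (hb : ∀ η : ℝ, 0 < η → ∀ u : E, ∃ T : E ≃ₗᵢ[ℝ] E, ‖T x - x‖ ≤ η ∧
      ∃ i, c * ‖u‖ ≤ |φ i (T u)|) :
    ∃ (H : Type) (_ : NormedAddCommGroup H) (_ : InnerProductSpace ℝ H)
      (_ : CompleteSpace H), Nonempty (E ≃L[ℝ] H) := by
  obtain ⟨f, hf1, hf2⟩ := exists_dual_vector ℝ x (by rw [hx]; norm_num)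
  have hfx : f x = 1 := by rw [hf2, hx]; simp
  have hsep := dual_separable hK0 hK
  have htr' : ∀ f g : StrongDual ℝ E, ‖f‖ = 1 → ‖g‖ = 1 →
      ∃ T : StrongDual ℝ E ≃ₗᵢ[ℝ] StrongDual ℝ E, T f = g := by
    intro f g hf hg
    obtain ⟨T, hT⟩ := dual_transitive hK0 hK htr f g hf hg
    exact ⟨dualIso T, hT⟩
  obtain ⟨K', hK'0, hK'1⟩ := smooth_at f hf1 φ hc
    (fun κ hκ => near_open htr' φ f hf1 hκ)
    (fun s hs ψ hψ => dom_dual hK0 hK x hx f hf1 hfx φ hb s hs ψ hψ)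
  have hK' : ∀ g ψ : StrongDual ℝ E, ‖g‖ = 1 → dl g ψ ≤ K' * ‖ψ‖ ^ 2 := by
    intro g ψ hg
    obtain ⟨T, hT⟩ := htr' f g hf1 hg
    have h1 := hK'1 (T.symm ψ)
    rw [T.symm.norm_map] at h1
    rw [← hT]
    have h2 : dl (T f) ψ = dl f (T.symm ψ) := by
      rw [← dl_map T f (T.symm ψ), T.apply_symm_apply]
    rw [h2]
    exact h1
  refine hilbert_of_bounds (c := 4 / (2 + 2 * K')) (C := 2 + 2 * K) (by positivity)
    (by positivity) ?_ (sq_upper hK)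
  exact sq_lower (by positivity) (sq_upper hK')

end Pool.H305R3.Rot
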