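import Pool.Agent.H755R2.MT.Hilbert
import Pool.Agent.H305R3.Rot.Near

set_option autoImplicit false
set_option linter.unusedSectionVars false

namespace Pool.H305R3.Rot

open TopologicalSpace Metric Pool.H755R2.MT

variable {E : Type*} [NormedAddCommGroup E] [NormedSpace ℝ E]

lemma dl_lip (x x' w : E) : dl x w ≤ dl x' w + 4 * ‖x - x'‖ := by
  unfold dl
  have h1 : ‖x + w‖ ≤ ‖x' + w‖ + ‖x - x'‖ := by
    have : x + w = (x' + w) + (x - x') := by abel
    rw [this]; exact norm_add_le _ _
  have h2 : ‖x - w‖ ≤ ‖x' - w‖ + ‖x - x'‖ := by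
    have : x - w = (x' - w) + (x - x') := by abel
    rw [this]; exact norm_add_le _ _
  have h3 : ‖x'‖ ≤ ‖x‖ + ‖x - x'‖ := by
    have : x' = x - (x - x') := by abel
    conv_lhs => rw [this]
    exact norm_sub_le _ _
  linarith

lemma exists_le_of_forall {ι : Type} [Finite ι] {a : ℝ} (b : ι → ℝ)
    (h : ∀ η : ℝ, 0 < η → ∃ i, a ≤ b i + η) : ∃ i, a ≤ b i := by
  by_contra hcon
  push Not at hcon
  obtain ⟨i0, _⟩ := h 1 one_pos
  have : Nonempty ι := ⟨i0⟩
  obtain ⟨m, hm⟩ := Finite.exists_max b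
  obtain ⟨i, hi⟩ := h ((a - b m) / 2) (by have := hcon m; linarith)
  have h1 := hm i
  have h2 := hcon m
  linarith

/-- Step 1: the smoothness modulus is controlled by finitely many directions, and these are handled
by the nearly open orbit map. -/
theorem smooth_at {ι : Type} [Finite ι] (x : E) (hx : ‖x‖ = 1) (e : ι → E) {c : ℝ} (hc : 0 < c)
    (hN : ∀ κ : ℝ, 0 < κ → ∃ t : ℝ, 0 < t ∧ ∀ y : E, ‖y‖ = 1 → ‖y - x‖ ≤ t → ∀ η : ℝ, 0 < η →
      ∃ T : E ≃ₗᵢ[ℝ] E, ‖T x - y‖ ≤ η ∧ ∀ i, ‖T (e i) - e i‖ ≤ κ)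
    (hD : ∀ s : ℝ, 0 < s → ∀ w : E, ‖w‖ ≤ c * s → ∃ i, dl x w ≤ dl x (s • e i)) :
    ∃ K : ℝ, 0 < K ∧ ∀ w : E, dl x w ≤ K * ‖w‖ ^ 2 := by
  obtain ⟨L, hL1, hL⟩ : ∃ L : ℝ, 1 ≤ L ∧ ∀ i, ‖e i‖ ≤ L := by
    have : Nonempty ι := ⟨(hD 1 one_pos 0 (by simpa using hc.le)).choose⟩
    obtain ⟨m, hm⟩ := Finite.exists_max (fun i => ‖e i‖)
    exact ⟨max 1 ‖e m‖, le_max_left _ _, fun i => (hm i).trans (le_max_right _ _)⟩
  have hL0 : 0 < L := by linarith
  set Λ : ℝ := (L + 2) / c + 2 with hΛ
  have hΛ2 : 2 ≤ Λ := by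
    have : 0 < (L + 2) / c := by positivity
    rw [hΛ]; linarith
  have hΛ0 : 0 < Λ := by linarith
  have hΛc : L + 2 ≤ c * Λ := by
    rw [hΛ]
    have : c * ((L + 2) / c + 2) = (L + 2) + 2 * c := by field_simp
    rw [this]; linarith
  set l : ℝ := 1 / (4 * Λ ^ 2) with hl
  have hl0 : 0 < l := by positivity
  have hl1 : l ≤ 1 / 16 := by
    rw [hl]
    apply one_div_le_one_div_of_le (by norm_num)
    nlinarith
  obtain ⟨t, ht0, ht⟩ := hN (l / 2) (by positivity)
  set t' : ℝ := min (t / 2) (l / (4 * L)) with ht'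
  have ht'0 : 0 < t' := lt_min (by linarith) (by positivity)
  have ht'1 : t' ≤ t / 2 := min_le_left _ _
  have ht'2 : t' * (4 * L) ≤ l := by
    rw [← le_div_iff₀ (by positivity)]
    exact min_le_right _ _
  have ht'3 : t' ≤ 1 / 16 := by nlinarith
  set s0 : ℝ := t' / (2 * L) with hs0
  have hs00 : 0 < s0 := by positivity
  set C : ℝ := 16 * L ^ 2 / t' + 2 * L / s0 with hC
  have hC1 : 16 * L ^ 2 ≤ C * t' := by
    rw [hC, add_mul, div_mul_cancel₀ _ ht'0.ne']
    have : 0 ≤ 2 * L / s0 * t' := by positivity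
    linarith
  have hC2 : 2 * L ≤ C * s0 := by
    rw [hC, add_mul, div_mul_cancel₀ _ hs00.ne']
    have : 0 ≤ 16 * L ^ 2 / t' * s0 := by positivity
    linarith
  have hC0 : 0 < C := by positivity
  -- large scales
  have hbig : ∀ s : ℝ, s0 ≤ s → ∀ i, dl x (s • e i) ≤ C * s ^ 2 := by
    intro s hs i
    have hs' : 0 < s := hs00.trans_le hs
    have h1 := dl_le x (s • e i)
    rw [norm_smul, Real.norm_of_nonneg hs'.le] at h1
    have h2 : s * ‖e i‖ ≤ s * L := mul_le_mul_of_nonneg_left (hL i) hs'.le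
    have h3 : C * s0 ≤ C * s := mul_le_mul_of_nonneg_left hs hC0.le
    nlinarith
  have hmain : ∀ n : ℕ, ∀ s : ℝ, 0 < s → s0 ≤ Λ ^ n * s → ∀ i, dl x (s • e i) ≤ C * s ^ 2 := by
    intro n
    induction n with
    | zero =>
      intro s _ hs2
      rw [pow_zero, one_mul] at hs2
      exact hbig s hs2
    | succ n ih =>
      intro s hs hs2
      rcases le_or_gt s0 s with hss | hss
      · exact hbig s hss
      intro i
      by_contra hcon
      push Not at hcon
      have hsL : s * L < t' := by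
        have : s * (2 * L) < t' := by
          rw [← lt_div_iff₀ (by positivity)]; exact hss
        nlinarith
      set w : E := s • e i with hw
      have hwn : ‖w‖ ≤ s * L := by
        rw [hw, norm_smul, Real.norm_of_nonneg hs.le]
        exact mul_le_mul_of_nonneg_left (hL i) hs.le
      have hμ0 : 0 < dl x w := lt_trans (by positivity) hcon
      have hw0 : 0 < ‖w‖ := by
        rcases eq_or_ne w 0 with h0 | h0
        · rw [h0, dl_zero] at hμ0; exact absurd hμ0 (lt_irrefl _)
        · exact norm_pos_iff.2 h0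
      -- bound at scale Λ s
      have hΛs : ∀ v : E, ‖v‖ ≤ s * (L + 2) → dl x v ≤ C * (Λ * s) ^ 2 := by
        intro v hv
        obtain ⟨j, hj⟩ := hD (Λ * s) (by positivity) v (by
          have : s * (L + 2) ≤ s * (c * Λ) := mul_le_mul_of_nonneg_left hΛc hs.le
          calc ‖v‖ ≤ s * (L + 2) := hv
            _ ≤ s * (c * Λ) := this
            _ = c * (Λ * s) := by ring)
        refine hj.trans (ih (Λ * s) (by positivity) ?_ j)
        have : Λ ^ (n + 1) * s = Λ ^ n * (Λ * s) := by ring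
        rw [← this]; exact hs2
      have hβ : ∀ z : E, ‖z - x‖ ≤ t' → 1 / 4 * dl x w ≤ dl z w := by
        intro z hzx
        have hz1 : |‖z‖ - 1| ≤ t' := by
          rw [← hx]
          exact (abs_norm_sub_norm_le z x).trans hzx
        obtain ⟨hz2, hz3⟩ := abs_le.1 hz1
        have hz0 : 0 < ‖z‖ := by linarith
        set y : E := ‖z‖⁻¹ • z with hy
        have hyn : ‖y‖ = 1 := by
          rw [hy, norm_smul, norm_inv, norm_norm, inv_mul_cancel₀ hz0.ne']
        have hzy : z = ‖z‖ • y := by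
          rw [hy, smul_inv_smul₀ hz0.ne']
        have hyz : ‖z - y‖ ≤ t' := by
          have : z - y = (‖z‖ - 1) • y := by
            rw [sub_smul, one_smul, ← hzy]
          rw [this, norm_smul, hyn, mul_one]
          exact hz1
        have hxy : ‖y - x‖ ≤ t := by
          have : y - x = (y - z) + (z - x) := by abel
          rw [this]
          refine (norm_add_le _ _).trans ?_
          rw [norm_sub_rev y z]
          linarith
        obtain ⟨T, hT1, hT2⟩ := ht y hyn hxy (dl x w / 16) (by positivity)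
        set w2 : E := ‖z‖⁻¹ • T.symm w with hw2
        have e4 : |‖z‖⁻¹ - 1| ≤ 2 * t' := by
          have : ‖z‖⁻¹ - 1 = (1 - ‖z‖) / ‖z‖ := by field_simp
          rw [this, abs_div, abs_of_pos hz0, div_le_iff₀ hz0, abs_sub_comm]
          have q1 : (1 : ℝ) / 2 ≤ ‖z‖ := by linarith
          have q2 : 2 * t' * (1 / 2) ≤ 2 * t' * ‖z‖ :=
            mul_le_mul_of_nonneg_left q1 (by linarith)
          linarith
        have hw2n : ‖w2 - w‖ ≤ s * l := by
          have e1 : w2 - w = (‖z‖⁻¹ - 1) • T.symm w + (T.symm w - w) := by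
            rw [hw2, sub_smul, one_smul]; abel
          have e2 : ‖T.symm w - w‖ ≤ s * (l / 2) := by
            have h1 : T.symm w - w = T.symm (w - T w) := by
              rw [map_sub, T.symm_apply_apply]
            have h2 : w - T w = s • (e i - T (e i)) := by
              rw [hw, map_smul, smul_sub]
            rw [h1, T.symm.norm_map, h2, norm_smul, Real.norm_of_nonneg hs.le, norm_sub_rev]
            exact mul_le_mul_of_nonneg_left (hT2 i) hs.le
          rw [e1]
          refine (norm_add_le _ _).trans ?_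
          rw [norm_smul, T.symm.norm_map, Real.norm_eq_abs]
          have e5 : |‖z‖⁻¹ - 1| * ‖w‖ ≤ 2 * t' * (s * L) :=
            mul_le_mul e4 hwn (norm_nonneg _) (by positivity)
          have e6 : 2 * t' * (s * L) = s * (t' * (4 * L)) / 2 := by ring
          have e7 : s * (t' * (4 * L)) ≤ s * l := mul_le_mul_of_nonneg_left ht'2 hs.le
          linarith
        -- convexity
        set v : E := l⁻¹ • (w - (1 - l) • w2) with hv
        have hwv : w = (1 - l) • w2 + l • v := by
          rw [hv, smul_inv_smul₀ hl0.ne']; abel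
        have hvn : ‖v‖ ≤ s * (L + 2) := by
          have e1 : v = w2 + l⁻¹ • (w - w2) := by
            rw [hv]
            have : w - (1 - l) • w2 = l • w2 + (w - w2) := by
              rw [sub_smul, one_smul]; abel
            rw [this, smul_add, inv_smul_smul₀ hl0.ne']
          have e2 : ‖l⁻¹ • (w - w2)‖ ≤ s := by
            rw [norm_smul, norm_inv, Real.norm_of_nonneg hl0.le, inv_mul_le_iff₀ hl0,
              norm_sub_rev]
            linarith
          have e3 : ‖w2‖ ≤ s * L + s := by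
            have : w2 = w + (w2 - w) := by abel
            rw [this]
            refine (norm_add_le _ _).trans ?_
            have : s * l ≤ s * 1 := mul_le_mul_of_nonneg_left (by linarith) hs.le
            linarith
          rw [e1]
          refine (norm_add_le _ _).trans ?_
          linarith
        have h1 := dl_convex x w2 v hl0.le (by linarith)
        rw [← hwv] at h1
        have h2 := hΛs v hvn
        have h3 : l * (C * (Λ * s) ^ 2) = C * s ^ 2 / 4 := by
          rw [hl]; field_simp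
        have h4 : l * dl x v ≤ l * (C * (Λ * s) ^ 2) := mul_le_mul_of_nonneg_left h2 hl0.le
        have h5 : 0 ≤ dl x w2 := dl_nonneg _ _
        have h6 : (1 - l) * dl x w2 ≤ dl x w2 := by
          have h8 : 0 ≤ l * dl x w2 := mul_nonneg hl0.le h5
          have h9 : (1 - l) * dl x w2 = dl x w2 - l * dl x w2 := by ring
          linarith
        have h7 : 3 / 4 * dl x w ≤ dl x w2 := by linarith
        -- back to z
        have e1 : T w2 = ‖z‖⁻¹ • w := by
          rw [hw2, map_smul, T.apply_symm_apply]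
        have e2 : dl x w2 = dl (T x) (‖z‖⁻¹ • w) := by
          rw [← dl_map T, e1]
        have e3 := dl_lip (T x) y (‖z‖⁻¹ • w)
        have e5 : dl z w = ‖z‖ * dl y (‖z‖⁻¹ • w) := by
          rw [← dl_smul _ _ hz0.le, ← hzy, smul_inv_smul₀ hz0.ne']
        rw [e5]
        have e6 : 1 / 2 * dl x w ≤ dl y (‖z‖⁻¹ • w) := by linarith
        have e7 : (1 : ℝ) / 2 ≤ ‖z‖ := by linarith
        have e8 : 0 ≤ dl y (‖z‖⁻¹ • w) := dl_nonneg _ _
        have e9 : 1 / 2 * dl y (‖z‖⁻¹ • w) ≤ ‖z‖ * dl y (‖z‖⁻¹ • w) :=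
          mul_le_mul_of_nonneg_right e7 e8
        linarith
      have hfin := chain_bound hx hw0 (lt_of_le_of_lt hwn hsL) hβ
      have h1 : ‖w‖ ^ 2 ≤ (s * L) ^ 2 := by
        exact pow_le_pow_left₀ (norm_nonneg _) hwn 2
      have h2 : dl x w * t' ≤ 16 * (s * L) ^ 2 := by linarith
      have h3 : C * s ^ 2 * t' < dl x w * t' := mul_lt_mul_of_pos_right hcon ht'0
      have h4 : 16 * (s * L) ^ 2 = (16 * L ^ 2) * s ^ 2 := by ring
      have h5 : (16 * L ^ 2) * s ^ 2 ≤ (C * t') * s ^ 2 :=
        mul_le_mul_of_nonneg_right hC1 (by positivity)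
      have h6 : C * s ^ 2 * t' = (C * t') * s ^ 2 := by ring
      linarith
  refine ⟨C / c ^ 2, by positivity, fun w => ?_⟩
  rcases eq_or_ne w 0 with rfl | hw
  · rw [dl_zero]; simp
  have hwn : 0 < ‖w‖ := norm_pos_iff.2 hw
  set s : ℝ := ‖w‖ / c with hs
  have hs0' : 0 < s := by positivity
  obtain ⟨i, hi⟩ := hD s hs0' w (by rw [hs]; field_simp; exact le_rfl)
  obtain ⟨n, hn⟩ := pow_unbounded_of_one_lt (s0 / s) (show 1 < Λ by linarith)
  have h1 := hmain n s hs0' (by rw [div_lt_iff₀ hs0'] at hn; exact hn.le) i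
  have h2 : C * s ^ 2 = C / c ^ 2 * ‖w‖ ^ 2 := by
    rw [hs]; field_simp
  linarith

end Pool.H305R3.Rot
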